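import Mathlib

/-!
# `τ_M` is the strongest triangle function universal for simple spaces (MP_6d1e65_an, Q1: proved)

Let `τ` be universal, `F, G ∈ Δ⁺`, `a ∈ (0, 1)` and `H(x) = max (F(a x)) (G((1 - a) x))`. Then
`F ≤ H(·/a)` and `G ≤ H(·/(1 - a))`, and in the simple space of the line with distance distribution
`H` the points `0, a, 1` give `τ(F, G) ≤ H`. Hence `τ(F, G)(x) ≤ max (F(u)) (G(v))` whenever
`u + v = x`, `u, v > 0`. Since `F` and `G` are left-continuous, a crossing argument shows that this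
infimum is at most `sup min (F(u)) (G(v))`; the end points are covered by `τ(F, G) ≤ min (F, G)`.
-/

set_option autoImplicit false

open Set Topology Filter
open scoped ENNReal

namespace Pool.Agent.Results.MP_6d1e65_an.StrongestTriangle

/-- `Δ⁺`: the distance distribution functions. (The values lie in `[0, 1]` because the function
is nondecreasing with value `0` at `0` and `1` at `∞`.) -/
structure DDF where
  /-- the function -/
  toFun : ℝ≥0∞ → ℝ
  mono : Monotone toFun
  left_cont : ∀ x : ℝ≥0∞, 0 < x → x < ∞ → Tendsto toFun (𝓝[<] x) (𝓝 (toFun x))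
  at_zero : toFun 0 = 0
  at_top : toFun ∞ = 1

/-- `ε_0` -/
noncomputable def eps0 : DDF where
  toFun x := if x ≤ 0 then 0 else 1
  mono := by
    intro x y hxy
    by_cases hx : x ≤ 0
    · simp only [hx, if_true]; split_ifs <;> norm_num
    · have hy : ¬ y ≤ 0 := fun h => hx (hxy.trans h)
      simp only [hx, hy, if_false]; exact le_rfl
  left_cont := by
    intro x hx _
    have : ∀ᶠ y in 𝓝[<] x, (1 : ℝ) = if y ≤ 0 then 0 else 1 := by
      filter_upwards [Ioo_mem_nhdsLT hx] with y hy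
      rw [if_neg (not_le.2 hy.1)]
    rw [if_neg (not_le.2 hx)]
    exact tendsto_const_nhds.congr' this
  at_zero := by simp
  at_top := by simp

/-- `ε_∞` -/
noncomputable def epsTop : DDF where
  toFun x := if x < ∞ then 0 else 1
  mono := by
    intro x y hxy
    by_cases hx : x < ∞
    · simp only [hx, if_true]; split_ifs <;> norm_num
    · have hy : ¬ y < ∞ := fun h => hx (hxy.trans_lt h)
      simp only [hx, hy, if_false]; exact le_rfl
  left_cont := by
    intro x hx hx2
    have : ∀ᶠ y in 𝓝[<] x, (0 : ℝ) = if y < ∞ then 0 else 1 := by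
      filter_upwards [Ioo_mem_nhdsLT hx] with y hy
      rw [if_pos (hy.2.trans hx2)]
    rw [if_pos hx2]
    exact tendsto_const_nhds.congr' this
  at_zero := by simp
  at_top := by simp

/-- The pointwise order of `Δ⁺`. -/
def DDF.Le (F G : DDF) : Prop := ∀ x, F.toFun x ≤ G.toFun x

/-- `τ` is a triangle function. -/
structure IsTriangleFunction (τ : DDF → DDF → DDF) : Prop where
  comm : ∀ F G, τ F G = τ G F
  assoc : ∀ F G H, τ (τ F G) H = τ F (τ G H)
  mono : ∀ F F' G G', DDF.Le F F' → DDF.Le G G' → DDF.Le (τ F G) (τ F' G')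
  identity : ∀ F, τ eps0 F = F

/-- The value `τ_M(F, G)(x) = sup {min (F(u)) (G(v)) : u + v = x}`. -/
noncomputable def tauM (F G : DDF) (x : ℝ≥0∞) : ℝ :=
  sSup {r : ℝ | ∃ u v : ℝ≥0∞, u + v = x ∧ r = min (F.toFun u) (G.toFun v)}

/-- `d` is a metric on `S` whose values may be infinite. -/
structure IsExtMetric {S : Type} (d : S → S → ℝ≥0∞) : Prop where
  eq_zero : ∀ p q, d p q = 0 ↔ p = q
  symm : ∀ p q, d p q = d q p
  triangle : ∀ p q r, d p r ≤ d p q + d q r

lemma scaled_left_cont (G : DDF) (d : ℝ≥0∞) (x : ℝ≥0∞) (hx : 0 < x) (hx2 : x < ∞) :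
    Tendsto (fun x => if x = ∞ then (1 : ℝ) else G.toFun (x / d)) (𝓝[<] x)
      (𝓝 (if x = ∞ then (1 : ℝ) else G.toFun (x / d))) := by
  have h1 : ∀ᶠ y in 𝓝[<] x, y ∈ Ioo 0 x := Ioo_mem_nhdsLT hx
  rw [if_neg hx2.ne]
  have h2 : ∀ᶠ y in 𝓝[<] x, G.toFun (y / d) = if y = ∞ then (1 : ℝ) else G.toFun (y / d) := by
    filter_upwards [h1] with y hy
    rw [if_neg (hy.2.trans hx2).ne]
  refine Tendsto.congr' h2 ?_
  rcases eq_or_ne d 0 with rfl | hd0
  · rw [ENNReal.div_zero hx.ne']
    refine tendsto_const_nhds.congr' ?_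
    filter_upwards [h1] with y hy
    rw [ENNReal.div_zero hy.1.ne']
  rcases eq_or_ne d ∞ with rfl | hd
  · rw [ENNReal.div_top]
    refine tendsto_const_nhds.congr' ?_
    filter_upwards [h1] with y hy
    rw [ENNReal.div_top]
  · have h3 : 0 < x / d := ENNReal.div_pos hx.ne' hd
    have h4 : x / d < ∞ := ENNReal.div_lt_top hx2.ne hd0
    refine (G.left_cont (x / d) h3 h4).comp ?_
    refine tendsto_nhdsWithin_iff.2 ⟨?_, ?_⟩
    · have : Continuous fun y : ℝ≥0∞ => y / d := ENNReal.continuous_div_const d hd0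
      exact (this.tendsto x).mono_left nhdsWithin_le_nhds
    · filter_upwards [h1] with y hy
      exact ENNReal.div_lt_div_right hd0 hd hy.2

/-- The distance distribution function `x ↦ G(x / d)` of a simple space. In `[0, ∞]` one has
`x / 0 = ∞` for `x > 0` and `0 / 0 = 0`, which gives the conventions `G(x / 0) = 1` for `x > 0` and
`G(0 / 0) = 0`; the value at `x = ∞` is `1`. -/
noncomputable def scaled (G : DDF) (d : ℝ≥0∞) : DDF where
  toFun x := if x = ∞ then 1 else G.toFun (x / d)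
  mono := by
    intro x y hxy
    show (if x = ∞ then (1 : ℝ) else G.toFun (x / d)) ≤ if y = ∞ then (1 : ℝ) else G.toFun (y / d)
    by_cases hy : y = ∞
    · rw [if_pos hy]
      split_ifs
      · exact le_rfl
      · rw [← G.at_top]; exact G.mono le_top
    · have hx : x ≠ ∞ := fun h => hy (top_le_iff.1 (h ▸ hxy))
      rw [if_neg hx, if_neg hy]
      exact G.mono (ENNReal.div_le_div_right hxy d)
  left_cont := scaled_left_cont G d
  at_zero := by simp [G.at_zero]
  at_top := by simp

/-- `(S, 𝓕)` is a PSM space. -/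
structure IsPSM {S : Type} (FF : S → S → DDF) : Prop where
  self : ∀ p, FF p p = eps0
  ne : ∀ p q, p ≠ q → FF p q ≠ eps0
  symm : ∀ p q, FF p q = FF q p

/-- `(S, 𝓕)` is a PM space under `τ`. -/
def IsPMUnder (τ : DDF → DDF → DDF) {S : Type} (FF : S → S → DDF) : Prop :=
  IsPSM FF ∧ ∀ p q r, DDF.Le (τ (FF p q) (FF q r)) (FF p r)

/-- `τ` is universal for the class of all simple spaces `(S, d, G)`. -/
def IsUniversalForSimple (τ : DDF → DDF → DDF) : Prop :=
  ∀ (S : Type) (d : S → S → ℝ≥0∞) (G : DDF), IsExtMetric d → G ≠ eps0 → G ≠ epsTop →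
    IsPMUnder τ (fun p q => scaled G (d p q))

lemma DDF.ext' {F G : DDF} (h : ∀ x, F.toFun x = G.toFun x) : F = G := by
  cases F; cases G
  congr
  funext x
  exact h x

lemma DDF.nonneg (F : DDF) (x : ℝ≥0∞) : 0 ≤ F.toFun x := by
  rw [← F.at_zero]; exact F.mono bot_le

lemma DDF.le_one (F : DDF) (x : ℝ≥0∞) : F.toFun x ≤ 1 := by
  rw [← F.at_top]; exact F.mono le_top

lemma mul_left_cont (F : DDF) {a : ℝ≥0∞} (ha0 : a ≠ 0) (ha : a ≠ ∞) (x : ℝ≥0∞) (hx : 0 < x)
    (hx2 : x < ∞) : Tendsto (fun y => F.toFun (a * y)) (𝓝[<] x) (𝓝 (F.toFun (a * x))) := by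
  refine (F.left_cont (a * x) (by positivity) (ENNReal.mul_lt_top ha.lt_top hx2)).comp ?_
  refine tendsto_nhdsWithin_iff.2 ⟨?_, ?_⟩
  · exact ((ENNReal.continuous_const_mul ha).tendsto x).mono_left nhdsWithin_le_nhds
  · filter_upwards [Ioo_mem_nhdsLT hx] with y hy
    exact (ENNReal.mul_lt_mul_iff_right ha0 ha).2 hy.2

/-- the function `H` -/
noncomputable def HH (F G : DDF) (a b : ℝ≥0∞) (ha0 : a ≠ 0) (ha : a ≠ ∞) (hb0 : b ≠ 0)
    (hb : b ≠ ∞) : DDF where
  toFun x := max (F.toFun (a * x)) (G.toFun (b * x))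
  mono := by
    intro x y hxy
    exact max_le_max (F.mono (mul_le_mul_right hxy a)) (G.mono (mul_le_mul_right hxy b))
  left_cont := by
    intro x hx hx2
    exact (mul_left_cont F ha0 ha x hx hx2).max (mul_left_cont G hb0 hb x hx hx2)
  at_zero := by simp [F.at_zero, G.at_zero]
  at_top := by simp [ENNReal.mul_top, ha0, hb0, F.at_top, G.at_top]

variable {τ : DDF → DDF → DDF}

lemma eps0_le (F : DDF) : DDF.Le F eps0 := by
  intro x
  show F.toFun x ≤ if x ≤ 0 then 0 else 1
  split_ifs with h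
  · rw [le_antisymm h bot_le, F.at_zero]
  · exact F.le_one x

lemma DDF.le_refl (F : DDF) : DDF.Le F F := fun _ => le_rfl

lemma tau_le_right (hτ : IsTriangleFunction τ) (F G : DDF) : DDF.Le (τ F G) G := by
  have := hτ.mono F eps0 G G (eps0_le F) G.le_refl
  rwa [hτ.identity] at this

lemma tau_le_left (hτ : IsTriangleFunction τ) (F G : DDF) : DDF.Le (τ F G) F := by
  rw [hτ.comm]
  exact tau_le_right hτ G F

/-- the key inequality -/
lemma key (hτ : IsTriangleFunction τ) (hu : IsUniversalForSimple τ) (F G : DDF) (x u v : ℝ≥0∞)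
    (hx : x < ∞) (hu0 : 0 < u) (hv0 : 0 < v) (huv : u + v = x) :
    (τ F G).toFun x ≤ max (F.toFun u) (G.toFun v) := by
  have hx0 : 0 < x := huv ▸ (hu0.trans_le le_self_add)
  have huT : u ≠ ∞ := ((le_self_add.trans huv.le).trans_lt hx).ne
  have hvT : v ≠ ∞ := ((le_add_self.trans huv.le).trans_lt hx).ne
  -- the points 0, u, u + v of the line, divided by x
  set a : ℝ≥0∞ := u / x with ha
  set b : ℝ≥0∞ := v / x with hb
  have ha0 : a ≠ 0 := (ENNReal.div_pos hu0.ne' hx.ne).ne'
  have hb0 : b ≠ 0 := (ENNReal.div_pos hv0.ne' hx.ne).ne'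
  have haT : a ≠ ∞ := (ENNReal.div_lt_top huT hx0.ne').ne
  have hbT : b ≠ ∞ := (ENNReal.div_lt_top hvT hx0.ne').ne
  have hab : a + b = 1 := by
    rw [ha, hb, ← ENNReal.add_div, huv, ENNReal.div_self hx0.ne' hx.ne]
  set H := HH F G a b ha0 haT hb0 hbT with hH
  have hHx : H.toFun x = max (F.toFun u) (G.toFun v) := by
    show max (F.toFun (a * x)) (G.toFun (b * x)) = _
    rw [ha, hb, ENNReal.div_mul_cancel hx0.ne' hx.ne, ENNReal.div_mul_cancel hx0.ne' hx.ne]
  rw [← hHx]
  by_cases h1 : H = eps0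
  · rw [h1]; exact eps0_le _ x
  by_cases h2 : H = epsTop
  · -- then `F` vanishes on the finite numbers
    have h3 : ∀ y : ℝ≥0∞, y < ∞ → F.toFun y = 0 := by
      intro y hy
      have h4 : H.toFun (y / a) = 0 := by
        rw [h2]
        show (if y / a < ∞ then (0 : ℝ) else 1) = 0
        rw [if_pos (ENNReal.div_lt_top hy.ne ha0)]
      have h5 : F.toFun (a * (y / a)) ≤ H.toFun (y / a) := le_max_left _ _
      rw [ENNReal.mul_div_cancel ha0 haT, h4] at h5
      exact le_antisymm h5 (F.nonneg y)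
    calc (τ F G).toFun x ≤ F.toFun x := tau_le_left hτ F G x
      _ = 0 := h3 x hx
      _ ≤ H.toFun x := H.nonneg x
  · have hmet : IsExtMetric (fun p q : ℝ => edist p q) :=
      ⟨fun p q => edist_eq_zero, fun p q => edist_comm p q, fun p q r => edist_triangle p q r⟩
    have h3 := (hu ℝ (fun p q => edist p q) H hmet h1 h2).2 0 a.toReal 1 x
    have hd1 : edist (0 : ℝ) a.toReal = a := by
      rw [edist_dist, dist_zero_left, Real.norm_of_nonneg ENNReal.toReal_nonneg,
        ENNReal.ofReal_toReal haT]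
    have hd2 : edist a.toReal (1 : ℝ) = b := by
      have : (1 : ℝ) = a.toReal + b.toReal := by
        rw [← ENNReal.toReal_add haT hbT, hab, ENNReal.toReal_one]
      rw [this, edist_dist, dist_self_add_right, Real.norm_of_nonneg ENNReal.toReal_nonneg,
        ENNReal.ofReal_toReal hbT]
    have hd3 : edist (0 : ℝ) 1 = 1 := by
      rw [edist_dist, dist_zero_left]
      simp
    simp only at h3
    rw [hd1, hd2, hd3] at h3
    have hF : DDF.Le F (scaled H a) := by
      intro y
      show F.toFun y ≤ if y = ∞ then (1 : ℝ) else H.toFun (y / a)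
      split_ifs
      · exact F.le_one y
      · have h5 : F.toFun (a * (y / a)) ≤ H.toFun (y / a) := le_max_left _ _
        rwa [ENNReal.mul_div_cancel ha0 haT] at h5
    have hG : DDF.Le G (scaled H b) := by
      intro y
      show G.toFun y ≤ if y = ∞ then (1 : ℝ) else H.toFun (y / b)
      split_ifs
      · exact G.le_one y
      · have h5 : G.toFun (b * (y / b)) ≤ H.toFun (y / b) := le_max_right _ _
        rwa [ENNReal.mul_div_cancel hb0 hbT] at h5
    refine (hτ.mono _ _ _ _ hF hG x).trans (h3.trans ?_)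
    show (if x = ∞ then (1 : ℝ) else H.toFun (x / 1)) ≤ H.toFun x
    rw [if_neg hx.ne, div_one]

lemma le_tauM (F G : DDF) {x u v : ℝ≥0∞} (h : u + v = x) :
    min (F.toFun u) (G.toFun v) ≤ tauM F G x := by
  refine le_csSup ⟨1, ?_⟩ ⟨u, v, h, rfl⟩
  rintro r ⟨u', v', -, rfl⟩
  exact (min_le_left _ _).trans (F.le_one _)

lemma le_of_left (F : DDF) {x : ℝ≥0∞} (hx : 0 < x) (hx2 : x < ∞) {c : ℝ}
    (h : ∀ y, y < x → F.toFun y ≤ c) : F.toFun x ≤ c := by
  have : (𝓝[<] x).NeBot := nhdsLT_neBot_of_exists_lt ⟨0, hx⟩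
  refine le_of_tendsto (F.left_cont x hx hx2) ?_
  filter_upwards [self_mem_nhdsWithin] with y hy
  exact h y hy

/-- Every triangle function `τ` which is universal for the class of all simple spaces satisfies
`τ ≤ τ_M` pointwise. -/
theorem result (τ : DDF → DDF → DDF) (hτ : IsTriangleFunction τ) (hu : IsUniversalForSimple τ)
    (F G : DDF) (x : ℝ≥0∞) : (τ F G).toFun x ≤ tauM F G x := by
  rcases eq_or_ne x ∞ with rfl | hxT
  · refine ((τ F G).le_one _).trans ?_
    have := le_tauM F G (x := ∞) (u := ∞) (v := ∞) (by simp)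
    rwa [F.at_top, G.at_top, min_self] at this
  rcases eq_or_ne x 0 with rfl | hx0
  · rw [(τ F G).at_zero]
    have := le_tauM F G (x := 0) (u := 0) (v := 0) (by simp)
    rwa [F.at_zero, G.at_zero, min_self] at this
  have hx : 0 < x := pos_iff_ne_zero.2 hx0
  have hxT' : x < ∞ := hxT.lt_top
  set A : Set ℝ≥0∞ := {u | u ≤ x ∧ F.toFun u ≤ G.toFun (x - u)} with hA
  set s := sSup A with hs
  have hsx : s ≤ x := sSup_le fun u hu => hu.1
  have hlow : ∀ u, u < s → F.toFun u ≤ tauM F G x := by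
    intro u hus
    obtain ⟨w, hw, huw⟩ := lt_sSup_iff.1 hus
    have h1 : F.toFun u ≤ G.toFun (x - u) :=
      (F.mono huw.le).trans (hw.2.trans (G.mono (tsub_le_tsub_left huw.le x)))
    have h2 := le_tauM F G (x := x) (u := u) (v := x - u)
      (add_tsub_cancel_of_le (huw.le.trans hw.1))
    rwa [min_eq_left h1] at h2
  have hhigh : ∀ v, v < x - s → G.toFun v ≤ tauM F G x := by
    intro v hv
    have hvx : v ≤ x := hv.le.trans tsub_le_self
    have h0 : v + s < x := lt_tsub_iff_right.1 hv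
    have h1 : s < x - v := by
      rw [lt_tsub_iff_right, add_comm]
      exact h0
    have h2 : x - v ∉ A := fun h => absurd (le_sSup h) (not_le.2 h1)
    have h3 : G.toFun v ≤ F.toFun (x - v) := by
      by_contra hc
      push Not at hc
      refine h2 ⟨tsub_le_self, ?_⟩
      rw [ENNReal.sub_sub_cancel hxT hvx]
      exact hc.le
    have h4 := le_tauM F G (x := x) (u := x - v) (v := v) (tsub_add_cancel_of_le hvx)
    rwa [min_eq_right h3] at h4
  rcases eq_or_ne s 0 with hs0 | hs0
  · rw [hs0, tsub_zero] at hhigh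
    exact (tau_le_right hτ F G x).trans (le_of_left G hx hxT' hhigh)
  rcases eq_or_ne s x with hsx' | hsx'
  · rw [hsx'] at hlow
    exact (tau_le_left hτ F G x).trans (le_of_left F hx hxT' hlow)
  have hs1 : 0 < s := pos_iff_ne_zero.2 hs0
  have hs2 : s < x := lt_of_le_of_ne hsx hsx'
  have hs3 : 0 < x - s := tsub_pos_of_lt hs2
  refine (key hτ hu F G x s (x - s) hxT' hs1 hs3 (add_tsub_cancel_of_le hsx)).trans ?_
  refine max_le (le_of_left F hs1 (hs2.trans hxT') hlow) (le_of_left G hs3 ?_ hhigh)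
  exact tsub_le_self.trans_lt hxT'

end Pool.Agent.Results.MP_6d1e65_an.StrongestTriangle
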